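import Mathlib
set_option autoImplicit false
open scoped MatrixOrder Matrix ComplexOrder

namespace Pool.Agent.Results.MP_26c808_an.NoMajorization

/-- `|X| ^ p`, where `|X|` is the positive semidefinite square root of `Xᴴ * X`. -/
noncomputable def absPow {n : ℕ} (X : Matrix (Fin n) (Fin n) ℂ) (p : ℝ) :
    Matrix (Fin n) (Fin n) ℂ :=
  (CFC.sqrt (Xᴴ * X)) ^ p

/-- The sum of the `k` largest eigenvalues of a Hermitian matrix. -/
noncomputable def topSum {n : ℕ} {X : Matrix (Fin n) (Fin n) ℂ} (hX : X.IsHermitian) (k : ℕ) : ℝ :=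
  ∑ i : Fin (Fintype.card (Fin n)), if (i : ℕ) < k then hX.eigenvalues₀ i else 0

/-- The eigenvalue vector of `X` majorizes the eigenvalue vector of `Y`. -/
def Maj {n : ℕ} {X Y : Matrix (Fin n) (Fin n) ℂ} (hX : X.IsHermitian) (hY : Y.IsHermitian) :
    Prop :=
  (∀ k : ℕ, 1 ≤ k → k ≤ n - 1 → topSum hY k ≤ topSum hX k) ∧ topSum hX n = topSum hY n

/-- The matrix `A`. -/
noncomputable def A : Matrix (Fin 3) (Fin 3) ℂ := !![2, 4, 5; 4, 14, 16; 5, 16, 21]
/-- The matrix `B`. -/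
noncomputable def B : Matrix (Fin 3) (Fin 3) ℂ := !![1, 0, 0; 0, 1/6, 0; 0, 0, 0]
/-- The matrix `|BA|`. -/
noncomputable def P : Matrix (Fin 3) (Fin 3) ℂ :=
  !![8/9, 10/9, 14/9; 10/9, 26/9, 31/9; 14/9, 31/9, 38/9]
/-- The matrix `|AB|`. -/
noncomputable def Q : Matrix (Fin 3) (Fin 3) ℂ := !![6, 3, 0; 3, 2, 0; 0, 0, 0]
/-- The matrix `A ^ 2 + |BA| ^ 3`. -/
noncomputable def X : Matrix (Fin 3) (Fin 3) ℂ :=
  !![701/9, 1954/9, 2417/9; 1954/9, 5678/9, 7015/9; 2417/9, 7015/9, 8696/9]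
/-- The matrix `A ^ 2 + |AB| ^ 3`. -/
noncomputable def Y : Matrix (Fin 3) (Fin 3) ℂ := !![387, 327, 179; 327, 566, 580; 179, 580, 722]

lemma psd_of_factor {M L : Matrix (Fin 3) (Fin 3) ℂ} {d : Fin 3 → ℝ} (hd : ∀ i, 0 ≤ d i)
    (h : M = Lᴴ * Matrix.diagonal (fun i => (d i : ℂ)) * L) : M.PosSemidef := by
  rw [h]
  have h1 : (Matrix.diagonal (fun i => (d i : ℂ))).PosSemidef := by
    refine Matrix.PosSemidef.diagonal (fun i => ?_)
    have := hd i
    simpa using this
  exact h1.conjTranspose_mul_mul_same L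

lemma A_psd : A.PosSemidef := by
  refine psd_of_factor (L := !![1, 2, 5/2; 0, 1, 1; 0, 0, 1]) (d := ![2, 6, 5/2]) ?_ ?_
  · intro i; fin_cases i <;> norm_num
  · ext i j
    fin_cases i <;> fin_cases j <;>
      norm_num [A, Matrix.mul_apply, Fin.sum_univ_succ, Matrix.conjTranspose_apply,
        Matrix.diagonal_apply, map_ofNat]

lemma B_psd : B.PosSemidef := by
  refine psd_of_factor (L := 1) (d := ![1, 1/6, 0]) ?_ ?_
  · intro i; fin_cases i <;> norm_num
  · ext i j
    fin_cases i <;> fin_cases j <;>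
      norm_num [B, Matrix.mul_apply, Fin.sum_univ_succ, Matrix.conjTranspose_apply,
        Matrix.diagonal_apply, map_ofNat, Matrix.one_apply]

lemma P_psd : P.PosSemidef := by
  refine psd_of_factor (L := !![1, 5/4, 7/4; 0, 1, 1; 0, 0, 1]) (d := ![8/9, 3/2, 0]) ?_ ?_
  · intro i; fin_cases i <;> norm_num
  · ext i j
    fin_cases i <;> fin_cases j <;>
      norm_num [P, Matrix.mul_apply, Fin.sum_univ_succ, Matrix.conjTranspose_apply,
        Matrix.diagonal_apply, map_ofNat]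

lemma Q_psd : Q.PosSemidef := by
  refine psd_of_factor (L := !![1, 1/2, 0; 0, 1, 0; 0, 0, 1]) (d := ![6, 1/2, 0]) ?_ ?_
  · intro i; fin_cases i <;> norm_num
  · ext i j
    fin_cases i <;> fin_cases j <;>
      norm_num [Q, Matrix.mul_apply, Fin.sum_univ_succ, Matrix.conjTranspose_apply,
        Matrix.diagonal_apply, map_ofNat]

lemma absPow_BA : absPow (B * A) 3 = P ^ 3 := by
  have h : CFC.sqrt ((B * A)ᴴ * (B * A)) = P := by
    refine CFC.sqrt_unique ?_ (Matrix.nonneg_iff_posSemidef.2 P_psd)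
    ext i j
    fin_cases i <;> fin_cases j <;>
      norm_num [A, B, P, Matrix.mul_apply, Fin.sum_univ_succ, Matrix.conjTranspose_apply,
        map_ofNat]
  unfold absPow
  rw [h]
  have := CFC.rpow_natCast P 3 (Matrix.nonneg_iff_posSemidef.2 P_psd)
  exact_mod_cast this

lemma absPow_AB : absPow (A * B) 3 = Q ^ 3 := by
  have h : CFC.sqrt ((A * B)ᴴ * (A * B)) = Q := by
    refine CFC.sqrt_unique ?_ (Matrix.nonneg_iff_posSemidef.2 Q_psd)
    ext i j
    fin_cases i <;> fin_cases j <;>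
      norm_num [A, B, Q, Matrix.mul_apply, Fin.sum_univ_succ, Matrix.conjTranspose_apply,
        map_ofNat]
  unfold absPow
  rw [h]
  have := CFC.rpow_natCast Q 3 (Matrix.nonneg_iff_posSemidef.2 Q_psd)
  exact_mod_cast this

lemma X_eq : A ^ 2 + absPow (B * A) 3 = X := by
  rw [absPow_BA]
  ext i j
  fin_cases i <;> fin_cases j <;>
    norm_num [A, P, X, pow_succ, Matrix.mul_apply, Fin.sum_univ_succ]

lemma Y_eq : A ^ 2 + absPow (A * B) 3 = Y := by
  rw [absPow_AB]
  ext i j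
  fin_cases i <;> fin_cases j <;>
    norm_num [A, Q, Y, pow_succ, Matrix.mul_apply, Fin.sum_univ_succ]

lemma X_sub_psd : (X - ((5/4 : ℝ) : ℂ) • 1).PosSemidef := by
  refine psd_of_factor (L := !![1, 7816/2759, 9668/2759; 0, 1, 205828/160933; 0, 0, 1])
    (d := ![2759/36, 160933/11036, 35335/643732]) ?_ ?_
  · intro i; fin_cases i <;> norm_num
  · ext i j
    fin_cases i <;> fin_cases j <;>
      norm_num [X, Matrix.mul_apply, Fin.sum_univ_succ, Matrix.conjTranspose_apply,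
        Matrix.diagonal_apply, map_ofNat, Matrix.one_apply]

/-- The test vector. -/
noncomputable def v : Fin 3 → ℂ := ![8, -15, 10]

lemma Y_sub_neg : ¬ (Y - ((5/4 : ℝ) : ℂ) • 1).PosSemidef := by
  intro h
  have h1 := h.dotProduct_mulVec_nonneg v
  have h0 : Y - ((5/4 : ℝ) : ℂ) • 1 =
      !![1543/4, 327, 179; 327, 2259/4, 580; 179, 580, 2883/4] := by
    ext i j
    fin_cases i <;> fin_cases j <;> norm_num [Y, Matrix.one_apply]
  have h2 : star v ⬝ᵥ (Y - ((5/4 : ℝ) : ℂ) • 1) *ᵥ v = ((-33/4 : ℝ) : ℂ) := by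
    rw [h0]
    norm_num [v, Matrix.mulVec, dotProduct, Fin.sum_univ_succ, map_ofNat]
  rw [h2] at h1
  have h3 : (0:ℝ) ≤ -33/4 := by exact_mod_cast h1
  norm_num at h3

section spec
variable {n : ℕ} {Z : Matrix (Fin n) (Fin n) ℂ} (hZ : Z.IsHermitian)

lemma eig_ge {c : ℝ} (h : (Z - (c : ℂ) • 1).PosSemidef) (i : Fin n) : c ≤ hZ.eigenvalues i := by
  have h1 := h.dotProduct_mulVec_nonneg (⇑(hZ.eigenvectorBasis i))
  rw [Matrix.sub_mulVec, hZ.mulVec_eigenvectorBasis, Matrix.smul_mulVec, Matrix.one_mulVec] at h1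
  have h2 : star (⇑(hZ.eigenvectorBasis i)) ⬝ᵥ (⇑(hZ.eigenvectorBasis i)) = (1 : ℂ) := by
    have h3 : inner ℂ (hZ.eigenvectorBasis i) (hZ.eigenvectorBasis i) = (1 : ℂ) := by
      rw [inner_self_eq_norm_sq_to_K, hZ.eigenvectorBasis.norm_eq_one]; simp
    rw [← h3, EuclideanSpace.inner_eq_star_dotProduct, dotProduct_comm]
  rw [dotProduct_sub, dotProduct_smul, dotProduct_smul, h2] at h1
  have h3 : (0 : ℂ) ≤ ((hZ.eigenvalues i - c : ℝ) : ℂ) := by
    refine h1.trans (le_of_eq ?_)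
    simp
  have h4 : 0 ≤ hZ.eigenvalues i - c := by exact_mod_cast h3
  linarith

lemma psd_of_eig {c : ℝ} (h : ∀ i, c ≤ hZ.eigenvalues i) : (Z - (c : ℂ) • 1).PosSemidef := by
  have h1 := hZ.spectral_theorem
  set U : Matrix (Fin n) (Fin n) ℂ := (hZ.eigenvectorUnitary : Matrix (Fin n) (Fin n) ℂ) with hU
  have hUU : U * star U = 1 := Unitary.coe_mul_star_self hZ.eigenvectorUnitary
  have h2 : Z - (c : ℂ) • 1 =
      U * Matrix.diagonal (fun i => ((hZ.eigenvalues i - c : ℝ) : ℂ)) * star U := by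
    have h3 : Matrix.diagonal (fun i => ((hZ.eigenvalues i - c : ℝ) : ℂ)) =
        Matrix.diagonal (RCLike.ofReal ∘ hZ.eigenvalues) -
          (c : ℂ) • (1 : Matrix (Fin n) (Fin n) ℂ) := by
      ext i j
      by_cases hij : i = j
      · subst hij; simp
      · simp [hij]
    rw [h3, mul_sub, sub_mul, Matrix.mul_smul, Matrix.smul_mul, mul_one, hUU]
    congr 1
  rw [h2]
  have h4 : (Matrix.diagonal (fun i => ((hZ.eigenvalues i - c : ℝ) : ℂ))).PosSemidef := by
    refine Matrix.PosSemidef.diagonal (fun i => ?_)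
    have := sub_nonneg.2 (h i)
    simpa using this
  exact h4.mul_mul_conjTranspose_same U

end spec

lemma sum_all {Z : Matrix (Fin 3) (Fin 3) ℂ} (hZ : Z.IsHermitian) :
    ((∑ i, hZ.eigenvalues₀ i : ℝ) : ℂ) = Z.trace := by
  rw [hZ.trace_eq_sum_eigenvalues]
  push_cast
  unfold Matrix.IsHermitian.eigenvalues
  exact (Equiv.sum_comp (Fintype.equivOfCardEq (Fintype.card_fin (Fintype.card (Fin 3)))).symm
    (fun i => ((hZ.eigenvalues₀ i : ℝ) : ℂ))).symm

/-- The last index. -/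
def last : Fin (Fintype.card (Fin 3)) := ⟨2, by simp⟩

lemma top_three {Z : Matrix (Fin 3) (Fin 3) ℂ} (hZ : Z.IsHermitian) :
    topSum hZ 2 = (∑ i, hZ.eigenvalues₀ i) - hZ.eigenvalues₀ last := by
  unfold topSum
  have h : ∀ i : Fin (Fintype.card (Fin 3)), (if (i : ℕ) < 2 then hZ.eigenvalues₀ i else 0) =
      hZ.eigenvalues₀ i - if i = last then hZ.eigenvalues₀ i else 0 := by
    intro i
    have hi : (i : ℕ) < 3 := lt_of_lt_of_eq i.2 (Fintype.card_fin 3)
    by_cases h2 : (i : ℕ) < 2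
    · have : i ≠ last := by
        intro h; rw [h] at h2; exact absurd h2 (by simp [last])
      rw [if_pos h2, if_neg this, sub_zero]
    · have : i = last := by
        apply Fin.ext
        simp only [last]
        omega
      rw [if_neg h2, if_pos this, sub_self]
  rw [Finset.sum_congr rfl fun i _ => h i, Finset.sum_sub_distrib, Finset.sum_ite_eq']
  simp

/-- The eigenvalue majorization fails for `p = 3` and a pair of `3 × 3` matrices. -/
theorem result : ∃ A B : Matrix (Fin 3) (Fin 3) ℂ, A.PosSemidef ∧ B.PosSemidef ∧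
    ∃ (hX : (A ^ 2 + absPow (B * A) 3).IsHermitian) (hY : (A ^ 2 + absPow (A * B) 3).IsHermitian),
      ¬ Maj hX hY := by
  refine ⟨A, B, A_psd, B_psd, ?_⟩
  rw [X_eq, Y_eq]
  have hX : X.IsHermitian := by
    ext i j
    fin_cases i <;> fin_cases j <;> norm_num [X, Matrix.conjTranspose_apply, map_ofNat]
  have hY : Y.IsHermitian := by
    ext i j
    fin_cases i <;> fin_cases j <;> norm_num [Y, Matrix.conjTranspose_apply, map_ofNat]
  refine ⟨hX, hY, fun h => ?_⟩
  have h2 := h.1 2 (by norm_num) (by norm_num)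
  rw [top_three, top_three] at h2
  have htr : (∑ i, hX.eigenvalues₀ i) = ∑ i, hY.eigenvalues₀ i := by
    have h3 : ((∑ i, hX.eigenvalues₀ i : ℝ) : ℂ) = ((∑ i, hY.eigenvalues₀ i : ℝ) : ℂ) := by
      rw [sum_all, sum_all]
      norm_num [X, Y, Matrix.trace, Fin.sum_univ_succ]
    exact_mod_cast h3
  have hx : 5 / 4 ≤ hX.eigenvalues₀ last := by
    have h3 := eig_ge hX X_sub_psd
      (Fintype.equivOfCardEq (Fintype.card_fin (Fintype.card (Fin 3))) last)
    unfold Matrix.IsHermitian.eigenvalues at h3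
    rwa [Equiv.symm_apply_apply] at h3
  have hy : hY.eigenvalues₀ last < 5 / 4 := by
    by_contra hcon
    push Not at hcon
    apply Y_sub_neg
    refine psd_of_eig hY fun i => ?_
    unfold Matrix.IsHermitian.eigenvalues
    refine hcon.trans (hY.eigenvalues₀_antitone ?_)
    rw [Fin.le_def]
    set j := (Fintype.equivOfCardEq (Fintype.card_fin (Fintype.card (Fin 3)))).symm i
    have hj : (j : ℕ) < 3 := lt_of_lt_of_eq j.2 (Fintype.card_fin 3)
    simp only [last]
    omega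
  linarith

end Pool.Agent.Results.MP_26c808_an.NoMajorization
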